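import Mathlib
import Pool.Agent.MP_6b3410_lc.H75.Spec
import Pool.Agent.MP_6b3410_lc.H19.Gadget

/-!
Formulas in conjunctive normal form with hidden variables, and polynomials of degree four over the
field with two elements, as projections of Hamiltonicity.
-/

namespace Pool.Agent.MP_6b3410_lc.H48

open Classical Pool.Agent.MP_6b3410_lc.H5 Pool.Agent.MP_6b3410_lc.H19 Pool.Agent.MP_6b3410_lc.H75

lemma exists_occ {O V : Type} [Fintype O] [Fintype V] (sc : O → V) :
    ∃ (L : V → ℕ) (oc : V → ℕ → Option O), ∑ v, L v = 2 * Fintype.card V + Fintype.card O ∧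
      (∀ v, 2 ≤ L v) ∧ (∀ v m o, oc v m = some o → sc o = v ∧ 2 ≤ m) ∧
      ∀ o, ∃ m, m < L (sc o) ∧ oc (sc o) m = some o := by
  let e := fun v => Fintype.equivFin {o // sc o = v}
  refine ⟨fun v => 2 + Fintype.card {o // sc o = v}, fun v m =>
    if h : 2 ≤ m ∧ m - 2 < Fintype.card {o // sc o = v} then some ((e v).symm ⟨m - 2, h.2⟩).1
    else none, ?_, fun v => Nat.le_add_right _ _, fun v m o h => ?_, fun o => ?_⟩
  · rw [Finset.sum_add_distrib, ← Fintype.card_sigma, Fintype.card_congr (Equiv.sigmaFiberEquiv sc)]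
    simp [mul_comm]
  · dsimp only at h
    split_ifs at h with h1
    obtain rfl := Option.some.inj h
    exact ⟨((e v).symm _).2, h1.1⟩
  · have := (e (sc o) ⟨o, rfl⟩).2
    refine ⟨2 + (e (sc o) ⟨o, rfl⟩).val, Nat.add_lt_add_left this 2, ?_⟩
    beta_reduce
    rw [dif_pos ⟨by omega, by omega⟩]
    simp

section cnf

variable {n M : ℕ} {Y : Type} (L : Fin n ⊕ Y → ℕ) (row : Fin M → Fin n ⊕ Y) (pos : Fin M → ℕ)

/-- transitions -/
def trans (on : Fin n × Bool × Bool → Prop) (j : Fin M) (b b' : Bool) : Prop :=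
  (∃ i, row j = Sum.inl i ∧ pos j = 0 ∧ on (i, b, b')) ∨
    ((∀ i, row j = Sum.inl i → pos j ≠ 0) ∧ (pos j + 1 < L (row j) → b' = !b))

variable {L row pos}

lemma good_iff {K O : Type} (cl : O → K) (sc : O → Fin n ⊕ Y) (sg : O → Bool)
    (oc : Fin n ⊕ Y → ℕ → Option O) (hL : ∀ v, 2 ≤ L v)
    (ho1 : ∀ v m o, oc v m = some o → sc o = v ∧ 2 ≤ m)
    (ho2 : ∀ o, ∃ m, m < L (sc o) ∧ oc (sc o) m = some o)
    (h0 : ∀ j, pos j < L (row j)) (h1 : ∀ r m, m < L r → ∃ j, row j = r ∧ pos j = m)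
    (h2 : ∀ j j', row j = row j' → pos j = pos j' → j = j')
    (h3 : ∀ j j', row j = row j' → pos j + 1 = pos j' → j.val + 1 = j'.val) (z : Fin n → Bool) :
    Good (K := K ⊕ Bool) (fun j => (oc (row j) (pos j)).map fun o => Sum.inl (cl o))
      (fun j => ((oc (row j) (pos j)).map sg).getD false)
      (trans L row pos fun p => (z p.1 == p.2.2) = true) (fun c => c = Sum.inr false)
      (fun c => c = Sum.inr true) (fun _ _ => True) ↔
      ∃ y : Y → Bool, ∀ κ, ∃ o, cl o = κ ∧ Sum.elim z y (sc o) = sg o := by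
  constructor
  · rintro ⟨st, hT, a, b, rfl, rfl, -, hcl⟩
    choose j1 hj1 hj2 using fun v => h1 v 1 (hL v)
    have hprev : ∀ j m, pos j = m + 1 → ∃ j0, row j0 = row j ∧ pos j0 = m ∧
        trans L row pos (fun p => (z p.1 == p.2.2) = true) j0 (!st j0) (st j) := by
      intro j m hm
      obtain ⟨j0, e1, e2⟩ := h1 (row j) m (by have := h0 j; omega)
      exact ⟨j0, e1, e2, hT _ _ (h3 _ _ e1 (by omega))⟩
    have hrow : ∀ m j, pos j = m + 1 → st j = st (j1 (row j)) := by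
      intro m
      induction m with
      | zero => intro j hj; rw [← h2 j (j1 (row j)) (hj1 _).symm (by rw [hj, hj2])]
      | succ m ih =>
        intro j hj
        obtain ⟨j0, e1, e2, (⟨i, -, e3, -⟩ | ⟨-, e3⟩)⟩ := hprev j _ hj
        · omega
        · rw [e3 (by rw [e1, e2, ← hj]; exact h0 j), Bool.not_not, ih j0 e2, e1]
    have hval : ∀ v, Sum.elim z (fun y => st (j1 (Sum.inr y))) v = st (j1 v) := by
      rintro (i | y)
      · obtain ⟨j0, e1, e2, (⟨i', e3, -, e4⟩ | ⟨e3, -⟩)⟩ := hprev (j1 (Sum.inl i)) 0 (hj2 _)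
        · obtain rfl : i = i' := by simpa [e1, hj1] using e3
          simpa using e4
        · exact absurd e2 (e3 i (e1.trans (hj1 _)))
      · rfl
    refine ⟨fun y => st (j1 (Sum.inr y)), fun κ => ?_⟩
    obtain ⟨j, e1, e2⟩ := hcl (Sum.inl κ) (by simp) (by simp)
    obtain ⟨o, e3, e4⟩ := Option.map_eq_some_iff.1 e1
    obtain ⟨e5, e6⟩ := ho1 _ _ _ e3
    refine ⟨o, Sum.inl.inj e4, ?_⟩
    rw [hval, e5, ← hrow (pos j - 1) j (by omega), e2]
    simp [e3]
  · rintro ⟨y, hy⟩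
    refine ⟨fun j => Sum.elim z y (row j), fun j j' hj => ?_, _, _, rfl, rfl, trivial, ?_⟩
    · have hnext : pos j + 1 < L (row j) → row j' = row j := by
        intro hlt
        obtain ⟨j1, e1, e2⟩ := h1 _ _ hlt
        have := h3 j j1 e1.symm e2.symm
        obtain rfl : j1 = j' := Fin.ext (by omega)
        exact e1
      by_cases hc : ∀ i, row j = Sum.inl i → pos j ≠ 0
      · refine Or.inr ⟨hc, fun hlt => ?_⟩
        beta_reduce
        rw [Bool.not_not, hnext hlt]
      · push Not at hc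
        obtain ⟨i, hr, hp⟩ := hc
        have e1 := hnext (by have := hL (row j); omega)
        exact Or.inl ⟨i, hr, hp, by simp [e1, hr]⟩
    · rintro (κ | b) hc1 hc2
      · obtain ⟨o, rfl, e1⟩ := hy κ
        obtain ⟨m, hm, e2⟩ := ho2 o
        obtain ⟨j, e3, e4⟩ := h1 _ _ hm
        exact ⟨j, by simp [e3, e4, e2], by simp [e3, e4, e2, e1]⟩
      · cases b <;> simp at hc1 hc2

end cnf

/-- A formula in conjunctive normal form with hidden variables is a projection of Hamiltonicity. -/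
theorem cnf_proj {n N : ℕ} {Y K O : Type} [Fintype Y] [Fintype K] [Fintype O] (hn : 1 ≤ n)
    (cl : O → K) (sc : O → Fin n ⊕ Y) (sg : O → Bool)
    (hN : 3 * (3 * (2 * (n + Fintype.card Y) + Fintype.card O) + Fintype.card K + 4) ≤ N) :
    ∃ pr : Edge N → (Fin n × Bool) ⊕ Bool,
      (∀ i, (Finset.univ.filter fun e => ∃ σ, pr e = Sum.inl (i, σ)).card ≤ 4) ∧
      ∀ z, Ham (app pr z) ↔ ∃ y : Y → Bool, ∀ κ, ∃ o, cl o = κ ∧ Sum.elim z y (sc o) = sg o := by
  obtain ⟨L, oc, hM, hL, ho1, ho2⟩ := exists_occ sc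
  obtain ⟨row, pos, h0, h1, h2, h3⟩ := exists_chain (Fin n ⊕ Y) L
  simp only [Fintype.card_sum, Fintype.card_fin] at hM
  have hM0 : 0 < ∑ r, L r := by rw [hM]; omega
  generalize (∑ r, L r) = M at *
  have hV : 3 * Fintype.card (Vx M (K ⊕ Bool)) ≤ N := by
    rw [card_vx, Fintype.card_sum, Fintype.card_bool, hM]
    omega
  have : Nonempty (Vx M (K ⊕ Bool)) := ⟨Vx.P true⟩
  have hs : ∀ i : Fin n, ∃ j j' : Fin M, row j = Sum.inl i ∧ pos j = 0 ∧ j.val + 1 = j'.val := by
    intro i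
    have := hL (Sum.inl i)
    obtain ⟨j, e1, e2⟩ := h1 (Sum.inl i) 0 (by omega)
    obtain ⟨j', e3, e4⟩ := h1 (Sum.inl i) 1 (by omega)
    exact ⟨j, j', e1, e2, h3 _ _ (e1.trans e3.symm) (by omega)⟩
  choose j1 j2 hj1 hj2 hj3 using hs
  obtain ⟨rail, hri, hr⟩ := exists_rails (V := Vx M (K ⊕ Bool)) N hV
    (fun p : Fin n × Bool × Bool => Vx.E (j1 p.1) p.2.1)
    (fun p => Vx.E (j2 p.1) p.2.2) (by
      rintro ⟨i, b1, b2⟩ ⟨i', b1', b2'⟩ e1 e2
      simp only [Vx.E.injEq] at e1 e2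
      have e3 := hj1 i
      rw [e1.1, hj1] at e3
      rw [Sum.inl.inj e3, e1.2, e2.2])
  obtain ⟨rho, hrho⟩ := hr (Arc (fun j => (oc (row j) (pos j)).map fun o => Sum.inl (cl o))
    (fun j => ((oc (row j) (pos j)).map sg).getD false) (trans L row pos fun _ => False)
    (fun c => c = Sum.inr false) (fun c => c = Sum.inr true) (fun _ _ => True)) (by
      rintro ⟨q, b1, b2⟩ ⟨-, (⟨_, -, -, h4⟩ | ⟨h4, -⟩)⟩
      · exact h4
      · exact h4 _ (hj1 q) (hj2 q))
  let pr : Edge N → (Fin n × Bool) ⊕ Bool := fun e =>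
    if h : ∃ p, rail p = e then Sum.inl (h.choose.1, h.choose.2.2) else Sum.inr (rho e)
  have hpr : ∀ p, pr (rail p) = Sum.inl (p.1, p.2.2) := fun p => by
    have h : ∃ p', rail p' = rail p := ⟨p, rfl⟩
    simp only [pr, dif_pos h, hri h.choose_spec]
  have hpr' : ∀ e, e ∉ Set.range rail → pr e = Sum.inr (rho e) := fun e he => dif_neg he
  refine ⟨pr, fun i => ?_, fun z => ?_⟩
  · refine le_trans (Finset.card_le_card (t := Finset.univ.image fun b : Bool × Bool => rail (i, b))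
      fun e he => ?_) (Finset.card_image_le.trans (by simp))
    obtain ⟨σ, hσ⟩ := (Finset.mem_filter.1 he).2
    by_cases h : e ∈ Set.range rail
    · obtain ⟨p, rfl⟩ := h
      rw [hpr] at hσ
      obtain rfl : p.1 = i := congrArg Prod.fst (Sum.inl.inj hσ)
      exact Finset.mem_image.2 ⟨p.2, Finset.mem_univ _, rfl⟩
    · rw [hpr' e h] at hσ
      simp at hσ
  have hx : ∀ p, app pr z (rail p) = (z p.1 == p.2.2) := fun p => by simp [app, hpr]
  rw [hrho _ (fun e he => by simp [app, hpr' e he]),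
    ← good_iff cl sc sg oc hL ho1 ho2 h0 h1 h2 h3 z, ← chain_iff hM0 (by
      rintro c rfl h'
      simp at h')]
  refine iff_of_eq (congrArg DHam ?_)
  funext u v
  refine propext ⟨?_, fun hA => ?_⟩
  · rintro (hA | ⟨p, hp, rfl, rfl⟩)
    · cases u <;> cases v <;> first
        | exact hA
        | skip
      exact ⟨hA.1, hA.2.imp (fun ⟨_, _, _, h4⟩ => h4.elim) id⟩
    · exact ⟨hj3 _, Or.inl ⟨p.1, hj1 _, hj2 _, (hx p).symm.trans hp⟩⟩
  · cases u <;> cases v <;> first
      | exact Or.inl hA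
      | skip
    rename_i j b j' b'
    rcases hA with ⟨e1, ⟨i, e2, e3, e4⟩ | e2⟩
    · obtain rfl : j = j1 i := h2 _ _ (e2.trans (hj1 i).symm) (e3.trans (hj2 i).symm)
      have e5 := hj3 i
      obtain rfl : j' = j2 i := Fin.ext (by omega)
      exact Or.inr ⟨(i, b, b'), by rw [hx]; exact e4, rfl, rfl⟩
    · exact Or.inl ⟨e1, Or.inr e2⟩

/-- A system of constraints of width `w` with hidden variables is a projection of Hamiltonicity. -/
theorem csp_proj {n N w : ℕ} {Y ι : Type} [Fintype Y] [Fintype ι] (hn : 1 ≤ n)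
    (sc : ι → Fin w → Fin n ⊕ Y) (R : ι → (Fin w → Bool) → Prop)
    (hN : 3 * (6 * (n + Fintype.card Y) + (3 * w + 1) * (Fintype.card ι * 2 ^ w) + 4) ≤ N) :
    ∃ pr : Edge N → (Fin n × Bool) ⊕ Bool,
      (∀ i, (Finset.univ.filter fun e => ∃ σ, pr e = Sum.inl (i, σ)).card ≤ 4) ∧
      ∀ z, Ham (app pr z) ↔ ∃ y : Y → Bool, ∀ t, R t fun k => Sum.elim z y (sc t k) := by
  let K := {p : ι × (Fin w → Bool) // ¬ R p.1 p.2}
  have hK : Fintype.card K ≤ Fintype.card ι * 2 ^ w :=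
    (Fintype.card_subtype_le _).trans (by simp)
  obtain ⟨pr, h1, h2⟩ := cnf_proj (N := N) (K := K) (O := K × Fin w) hn Prod.fst
    (fun o => sc o.1.1.1 o.2) (fun o => !o.1.1.2 o.2) (by
      rw [Fintype.card_prod, Fintype.card_fin]
      refine le_trans ?_ hN
      nlinarith [Nat.mul_le_mul_right w hK])
  refine ⟨pr, h1, fun z => (h2 z).trans (exists_congr fun y => ⟨fun h t => ?_, fun h κ => ?_⟩)⟩
  · by_contra hc
    obtain ⟨⟨_, k⟩, rfl, e⟩ := h ⟨(t, fun k => Sum.elim z y (sc t k)), hc⟩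
    exact (Bool.eq_not_self _).1 e
  · by_contra hc
    push Not at hc
    refine κ.2 ?_
    have : κ.1.2 = fun k => Sum.elim z y (sc κ.1.1 k) := funext fun k => by
      have := hc (κ, k) rfl
      revert this
      cases κ.1.2 k <;> cases Sum.elim z y (sc κ.1.1 k) <;> simp
    rw [this]
    exact h _

lemma run_iff {T : ℕ} (hT : 0 < T) (g : Fin T → Bool) (β : Bool) :
    (∃ y : Fin (T + 1) → Bool, ∀ t : Fin T, y t.succ = xor (y t.castSucc) (g t) ∧
      (t.val = 0 → y t.castSucc = false) ∧ (t.val + 1 = T → y t.succ = β)) ↔ par g = β := by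
  constructor
  · rintro ⟨y, hy⟩
    have h : ∀ m (hm : m < T + 1), y ⟨m, hm⟩ = pre g m := by
      intro m
      induction m with
      | zero => intro _; rw [pre_zero]; exact (hy ⟨0, hT⟩).2.1 rfl
      | succ m ih =>
        intro hm
        rw [pre_succ g ⟨m, by omega⟩, ← ih (by omega)]
        exact (hy ⟨m, by omega⟩).1
    rw [← pre_last, ← h T (by omega), ← (hy ⟨T - 1, by omega⟩).2.2 (by simp only; omega)]
    congr 1
    exact Fin.ext (by simp only [Fin.succ_mk]; omega)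
  · rintro rfl
    refine ⟨fun m => pre g m.val, fun t => ⟨pre_succ g t, fun h => ?_, fun h => ?_⟩⟩
    · simp only [Fin.val_castSucc, h, pre_zero]
    · simp only [Fin.val_succ, h, pre_last]

theorem gadget4 : GadgetStmt := by
  refine ⟨4000, fun n N hn hN c β => ?_⟩
  have hc : Fintype.card (Fin n × Fin n × Fin n × Fin n) = n ^ 4 := by simp; ring
  let e := (Fintype.equivFinOfCardEq hc).symm
  have hT : n ≤ n ^ 4 := Nat.le_self_pow (by norm_num) n
  generalize n ^ 4 = T at *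
  obtain ⟨pr, h1, h2⟩ := csp_proj (N := N) (w := 6) (Y := Fin (T + 1)) (ι := Fin T) hn
    (fun t => ![Sum.inr t.castSucc, Sum.inr t.succ, Sum.inl (e t).1, Sum.inl (e t).2.1,
      Sum.inl (e t).2.2.1, Sum.inl (e t).2.2.2])
    (fun t σ => σ 1 = xor (σ 0) (c (e t) && σ 2 && σ 3 && σ 4 && σ 5) ∧
      (t.val = 0 → σ 0 = false) ∧ (t.val + 1 = T → σ 1 = β)) (by
      simp only [Fintype.card_fin]
      omega)
  refine ⟨pr, h1, fun z => (h2 z).trans ?_⟩
  have h3 := run_iff (T := T) (by omega)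
    (fun t => c (e t) && z (e t).1 && z (e t).2.1 && z (e t).2.2.1 && z (e t).2.2.2) β
  refine Iff.trans ?_ (h3.trans ?_)
  · rfl
  · have : par (fun t => c (e t) && z (e t).1 && z (e t).2.1 && z (e t).2.2.1 && z (e t).2.2.2) =
        poly c z := by
      unfold par poly
      rw [Equiv.sum_comp e fun t => (c t && z t.1 && z t.2.1 && z t.2.2.1 && z t.2.2.2).toNat,
        Finset.card_filter]
      congr 3
      funext t
      cases c t <;> cases z t.1 <;> cases z t.2.1 <;> cases z t.2.2.1 <;> cases z t.2.2.2 <;> simp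
    rw [this]

end Pool.Agent.MP_6b3410_lc.H48
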